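import Pool.Agent.H663Z.Exch.Main

set_option autoImplicit false

namespace Pool.Agent.Results.MP_8d5706_al.AFunctor

open CategoryTheory Pool.Agent.H663Z.Exch

/-- There is a functor `Ψ` from simplicial monoids with order-unit and normalized embeddings to
exchange rings such that `V ∘ Ψ` is naturally isomorphic to the inclusion functor into
commutative monoids. -/
theorem result : ∃ Ψ : SObj ⥤ ExchObj, Nonempty (Ψ ⋙ Vfunctor ≅ incl) :=
  main

end Pool.Agent.Results.MP_8d5706_al.AFunctor
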